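import Pool.Agent.Helper45.U4.St1

/-!
# Project U4 (MP_a1f43d_co): module ONB, orthonormal bases
-/

set_option autoImplicit false

open Module Classical
open scoped LinearAlgebra.Projectivization

namespace Pool.Agent.Helper99.U4

open Pool.Agent.Helper45.U4 Pool.Agent.Helper53.PB

section

variable {F V : Type} [Field F] [AddCommGroup V] [Module F V]

/-- a vector of norm one -/
theorem exists_one (h1 : StHF) (φ : Form F V) (hk : φ.kind = .hermitian) (hc : Nat.card F = 4)
    (hV : ∃ x : V, x ≠ 0) : ∃ u : V, φ.f u u = 1 := by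
  obtain ⟨⟨ω, hω⟩, _, hadd, hsmul, hherm, _, h01, hnd⟩ := h1 φ hk hc
  by_contra hcon
  push Not at hcon
  have h0 : ∀ u : V, φ.f u u = 0 := fun u => (h01 u).resolve_right (hcon u)
  obtain ⟨x, hx⟩ := hV
  apply hx
  apply hnd x
  intro y
  by_contra ha
  have h2 := h0 (x + (ω / φ.f x y) • y)
  rw [hadd, map_add, map_add, hsmul, hsmul, map_smul, map_smul, h0 x, h0 y, hherm x y] at h2
  simp only [smul_eq_mul] at h2
  have h3 : ω + ω ^ 2 = 0 := by
    have h4 : ω / φ.f x y * φ.f x y = ω := div_mul_cancel₀ _ ha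
    have h5 : (ω / φ.f x y) ^ 2 * φ.f x y ^ 2 = ω ^ 2 := by rw [← mul_pow, h4]
    linear_combination h2 - h4 - h5
  have h6 : ω + ω ^ 2 = 1 := by
    rw [hω.sq, ← add_assoc, hω.two, zero_add]
  rw [h6] at h3
  exact one_ne_zero h3

theorem exists_gram (h1 : StHF) (hc : Nat.card F = 4) (n : ℕ) :
    ∀ (V : Type) [AddCommGroup V] [Module F V] [FiniteDimensional F V] (φ : Form F V),
      φ.kind = .hermitian → finrank F V = n →
      ∃ e : Fin n → V, ∀ i j, φ.f (e i) (e j) = if i = j then 1 else 0 := by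
  induction n with
  | zero =>
    intro V _ _ _ φ hk hn
    exact ⟨fun i => i.elim0, fun i => i.elim0⟩
  | succ n ih =>
    intro V _ _ _ φ hk hn
    have hV : ∃ x : V, x ≠ 0 := by
      have : 0 < finrank F V := by omega
      have := Module.finrank_pos_iff_exists_ne_zero.1 this
      exact this
    obtain ⟨u, hu⟩ := exists_one h1 φ hk hc hV
    obtain ⟨_, _, _, _, _, _, _, hnd⟩ := h1 φ hk hc
    have hW : ∀ x ∈ LinearMap.ker (φ.f u), φ.Sing x →
        (∀ y ∈ LinearMap.ker (φ.f u), φ.Perp x y) → x = 0 := by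
      intro x hx _ hp
      apply hnd x
      intro y
      have hxu : φ.f x u = 0 := φ.f_symm _ _ hx
      have hmem : y - φ.f u y • u ∈ LinearMap.ker (φ.f u) := by
        rw [LinearMap.mem_ker, map_sub, map_smul, hu, smul_eq_mul, mul_one, sub_self]
      have h2 := (φ.perp_iff _ _).1 (hp _ hmem)
      rw [map_sub, map_smul, hxu, smul_zero, sub_zero] at h2
      exact h2
    have hfin : finrank F (LinearMap.ker (φ.f u)) = n := by
      have h3 : ¬ (⊤ : Submodule F V) ≤ LinearMap.ker (φ.f u) := by
        intro h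
        have h4 : φ.f u u = 0 := h (Submodule.mem_top)
        rw [hu] at h4
        exact one_ne_zero h4
      have h5 := Polar.finrank_inf_ker ⊤ (φ.f u) h3
      rw [top_inf_eq, finrank_top] at h5
      omega
    obtain ⟨e, he⟩ := ih (LinearMap.ker (φ.f u)) (φ.restrict _ hW)
      ((φ.restrict_kind _ hW).trans hk) hfin
    refine ⟨Fin.cons u (fun i => (e i : V)), ?_⟩
    have hL : ∀ i, φ.f u (e i : V) = 0 := fun i => (e i).2
    intro i j
    refine Fin.cases ?_ (fun i => ?_) i
    · refine Fin.cases ?_ (fun j => ?_) j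
      · simp [hu]
      · rw [Fin.cons_zero, Fin.cons_succ, hL j, if_neg]
        exact (Fin.succ_ne_zero j).symm
    · refine Fin.cases ?_ (fun j => ?_) j
      · rw [Fin.cons_zero, Fin.cons_succ, φ.f_symm _ _ (hL i), if_neg]
        exact Fin.succ_ne_zero i
      · rw [Fin.cons_succ, Fin.cons_succ]
        have h6 := he i j
        rw [Form.restrict_f] at h6
        rw [h6]
        simp [Fin.succ_inj]

end

theorem hONB (h1 : StHF) : StONB := by
  intro F V _ _ _ _ φ n hk hc hn
  obtain ⟨e, he⟩ := exists_gram h1 hc n V φ hk hn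
  have hli : LinearIndependent F e := by
    rw [Fintype.linearIndependent_iff]
    intro g hg i
    have h2 : φ.f (e i) (∑ j, g j • e j) = 0 := by rw [hg, map_zero]
    rw [map_sum] at h2
    simp only [map_smul, he, smul_eq_mul, mul_ite, mul_one, mul_zero, Finset.sum_ite_eq,
      Finset.mem_univ, if_true] at h2
    exact h2
  refine ⟨e, he, hli, ?_⟩
  apply hli.span_eq_top_of_card_eq_finrank'
  rw [Fintype.card_fin, hn]

end Pool.Agent.Helper99.U4
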