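import Pool.Agent.Helper45.U4.St2

/-!
# Project U4 (MP_a1f43d_co): module CFG, the rules of the search hold
-/

set_option autoImplicit false

open Module Classical
open scoped LinearAlgebra.Projectivization

namespace Pool.Agent.Helper99.U4

open Pool.Agent.Helper45.U4 Pool.Agent.Helper53.PB

section vec

variable {F V : Type} [Field F] [AddCommGroup V] [Module F V]

theorem mk_of_rep {y : ℙ F V} {c : F} {v : V} (h : y.rep = c • v) :
    ∃ hv : v ≠ 0, Projectivization.mk F v hv = y := by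
  have hv : v ≠ 0 := by
    rintro rfl
    exact y.rep_nonzero (by rw [h, smul_zero])
  have hc : c ≠ 0 := by
    rintro rfl
    exact y.rep_nonzero (by rw [h, zero_smul])
  refine ⟨hv, ?_⟩
  rw [← y.mk_rep, Projectivization.mk_eq_mk_iff']
  exact ⟨c⁻¹, by rw [h, smul_smul, inv_mul_cancel₀ hc, one_smul]⟩

theorem rep_of_mk {v : V} (hv : v ≠ 0) :
    ∃ a : F, a ≠ 0 ∧ (Projectivization.mk F v hv).rep = a • v := by
  obtain ⟨a, ha⟩ := Projectivization.exists_smul_eq_mk_rep F v hv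
  exact ⟨a, a.ne_zero, by rw [← ha, Units.smul_def]⟩

theorem iv_of_rep {f : ℙ F V → ℤ} {y : ℙ F V} {c : F} {v : V} (h : y.rep = c • v) (hf : 0 < f y) :
    IV f v := by
  obtain ⟨hv, h1⟩ := mk_of_rep h
  exact ⟨hv, by rw [h1]; exact hf⟩

theorem mk_smul_eq {c : F} {v : V} (h : c • v ≠ 0) :
    ∃ hv : v ≠ 0, Projectivization.mk F (c • v) h = Projectivization.mk F v hv := by
  have hv : v ≠ 0 := by
    rintro rfl
    exact h (smul_zero c)
  refine ⟨hv, ?_⟩
  rw [Projectivization.mk_eq_mk_iff']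
  exact ⟨c, rfl⟩

/-- a heavy point `X`, spanned by `w` -/
structure Hv (f : ℙ F V → ℤ) (X : ℙ F V) (w : V) : Prop where
  zero : f X = 0
  rep : ∃ a : F, a ≠ 0 ∧ X.rep = a • w

theorem Hv.ne {f : ℙ F V → ℤ} {X : ℙ F V} {w : V} (h : Hv f X w) : w ≠ 0 := by
  obtain ⟨a, _, h1⟩ := h.rep
  exact (mk_of_rep h1).1

theorem Hv.not_iv {f : ℙ F V → ℤ} {X : ℙ F V} {w : V} (h : Hv f X w) (c : F) : ¬ IV f (c • w) := by
  rintro ⟨h1, h2⟩
  obtain ⟨hw, h3⟩ := mk_smul_eq h1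
  obtain ⟨a, _, h4⟩ := h.rep
  obtain ⟨_, h5⟩ := mk_of_rep h4
  rw [h3, h5, h.zero] at h2
  exact lt_irrefl _ h2

theorem Hv.partner {f : ℙ F V → ℤ} {X : ℙ F V} {w : V} (h : Hv f X w) {v : V} (hv : v ≠ 0)
    (hG : ∃ q, q ≠ Projectivization.mk F v hv ∧ 0 < f q ∧ q.rep ∈ line X (Projectivization.mk F v hv)) :
    ∃ d : F, d ≠ 0 ∧ IV f (v + d • w) := by
  obtain ⟨q, hq1, hq2, hq3⟩ := hG
  obtain ⟨a, _, ha⟩ := h.rep
  obtain ⟨e, he0, he⟩ := rep_of_mk (F := F) hv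
  obtain ⟨α, β, hq⟩ := mem_line.1 hq3
  rw [ha, he, smul_smul, smul_smul] at hq
  have hβ : β ≠ 0 := by
    rintro rfl
    rw [zero_mul, zero_smul, add_zero] at hq
    obtain ⟨_, h1⟩ := mk_of_rep hq.symm
    obtain ⟨_, h2⟩ := mk_of_rep ha
    rw [← h1, h2, h.zero] at hq2
    exact lt_irrefl _ hq2
  have hβe : β * e ≠ 0 := mul_ne_zero hβ he0
  have h3 : q.rep = (β * e) • (v + (α * a / (β * e)) • w) := by
    rw [smul_add, smul_smul, mul_div_cancel₀ _ hβe, ← hq, add_comm]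
  refine ⟨α * a / (β * e), ?_, iv_of_rep h3 hq2⟩
  intro h0
  rw [h0, zero_smul, add_zero] at h3
  obtain ⟨_, h1⟩ := mk_of_rep h3
  exact hq1 h1.symm

theorem Hv.on_line {f : ℙ F V → ℤ} {X : ℙ F V} {w : V} (h : Hv f X w) {u v : V} (hu : u ≠ 0) (hv : v ≠ 0)
    (h1 : 0 < f (Projectivization.mk F u hu)) (h2 : 0 < f (Projectivization.mk F v hv))
    (hX : X.rep ∈ line (Projectivization.mk F u hu) (Projectivization.mk F v hv)) :
    ∃ c d : F, c ≠ 0 ∧ d ≠ 0 ∧ u + c • v = d • w := by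
  obtain ⟨a, ha0, ha⟩ := h.rep
  obtain ⟨e, he0, he⟩ := rep_of_mk (F := F) hu
  obtain ⟨g, hg0, hg⟩ := rep_of_mk (F := F) hv
  obtain ⟨α, β, hq⟩ := mem_line.1 hX
  rw [ha, he, hg, smul_smul, smul_smul] at hq
  have hα : α ≠ 0 := by
    rintro rfl
    rw [zero_mul, zero_smul, zero_add] at hq
    have h3 : v = ((β * g)⁻¹ * a) • w := by
      have hne : β * g ≠ 0 := by
        intro h0
        rw [h0, zero_smul] at hq
        exact (smul_ne_zero ha0 h.ne) hq.symm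
      rw [← smul_smul, ← hq, smul_smul, inv_mul_cancel₀ hne, one_smul]
    exact h.not_iv ((β * g)⁻¹ * a) (h3 ▸ ⟨hv, h2⟩)
  have hβ : β ≠ 0 := by
    rintro rfl
    rw [zero_mul, zero_smul, add_zero] at hq
    have hne : α * e ≠ 0 := mul_ne_zero hα he0
    have h3 : u = ((α * e)⁻¹ * a) • w := by
      rw [← smul_smul, ← hq, smul_smul, inv_mul_cancel₀ hne, one_smul]
    exact h.not_iv ((α * e)⁻¹ * a) (h3 ▸ ⟨hu, h1⟩)
  have hαe : α * e ≠ 0 := mul_ne_zero hα he0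
  refine ⟨(α * e)⁻¹ * (β * g), (α * e)⁻¹ * a, mul_ne_zero (inv_ne_zero hαe) (mul_ne_zero hβ hg0),
    mul_ne_zero (inv_ne_zero hαe) ha0, ?_⟩
  rw [mul_smul (α * e)⁻¹ (β * g) v, mul_smul (α * e)⁻¹ a w, ← hq, smul_add, smul_smul (α * e)⁻¹ (α * e) u,
    inv_mul_cancel₀ hαe, one_smul]

theorem Hv.mem_line {f : ℙ F V → ℤ} {X : ℙ F V} {w : V} (h : Hv f X w) {u v : V} (hu : u ≠ 0) (hv : v ≠ 0)
    {c d : F} (huv : v = c • u + d • w) :
    (Projectivization.mk F v hv).rep ∈ line X (Projectivization.mk F u hu) := by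
  obtain ⟨a, ha0, ha⟩ := h.rep
  obtain ⟨e, he0, he⟩ := rep_of_mk (F := F) hu
  obtain ⟨g, hg0, hg⟩ := rep_of_mk (F := F) hv
  have h1 : w ∈ line X (Projectivization.mk F u hu) := by
    have := (line X (Projectivization.mk F u hu)).smul_mem a⁻¹ (left_mem_line X _)
    rwa [ha, smul_smul, inv_mul_cancel₀ ha0, one_smul] at this
  have h2 : u ∈ line X (Projectivization.mk F u hu) := by
    have := (line X (Projectivization.mk F u hu)).smul_mem e⁻¹ (right_mem_line X _)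
    rwa [he, smul_smul, inv_mul_cancel₀ he0, one_smul] at this
  rw [hg, huv]
  exact Submodule.smul_mem _ _ (Submodule.add_mem _ (Submodule.smul_mem _ _ h2) (Submodule.smul_mem _ _ h1))

/-- orthogonality of the points of `u`, `v` -/
theorem f_rep_mk (φ : Form F V) {u v : V} (hu : u ≠ 0) (hv : v ≠ 0) (h : φ.f u v = 0) :
    φ.f (Projectivization.mk F u hu).rep (Projectivization.mk F v hv).rep = 0 := by
  obtain ⟨e, _, he⟩ := rep_of_mk (F := F) hu
  obtain ⟨g, _, hg⟩ := rep_of_mk (F := F) hv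
  have h1 : φ.f (e • u) v = 0 := Polar.smul_left (P := φ.toPolar) e h
  rw [he, hg, map_smul, h1, smul_zero]

theorem Hv.f_rep {f : ℙ F V → ℤ} {X : ℙ F V} {w : V} (h : Hv f X w) (φ : Form F V) {v : V} (hv : v ≠ 0)
    (h1 : φ.f w v = 0) : φ.f X.rep (Projectivization.mk F v hv).rep = 0 := by
  obtain ⟨a, ha0, ha⟩ := h.rep
  obtain ⟨g, _, hg⟩ := rep_of_mk (F := F) hv
  have h2 : φ.f (a • w) v = 0 := Polar.smul_left (P := φ.toPolar) a h1
  rw [ha, hg, map_smul, h2, smul_zero]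

end vec

section code

variable {F V : Type} [Field F] [AddCommGroup V] [Module F V]

/-- the facts on codes -/
structure Vc (ω : F) (b : Fin 6 → V) : Prop where
  om : Om ω
  xor : ∀ m n : ℕ, vv ω b (m ^^^ n) = vv ω b m + vv ω b n
  wmv : ∀ n : ℕ, n < 4096 → vv ω b (wm n) = ω • vv ω b n
  wml : ∀ n : ℕ, n < 4096 → wm n < 4096
  xl : ∀ m n : ℕ, m < 4096 → n < 4096 → m ^^^ n < 4096
  zero : ∀ n : ℕ, n < 4096 → vv ω b n = 0 → n = 0
  z0 : vv ω b 0 = 0
  v1 : vv ω b 1 = b 0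
  v2 : vv ω b 2 = b 1

theorem Om.tw {ω : F} (h : Om ω) (v : V) : v + v = 0 := by
  have := h.two 1
  calc v + v = ((1 : F) + 1) • v := by rw [add_smul, one_smul]
    _ = 0 := by rw [this, zero_smul]

theorem Om.ne_add {ω : F} (h : Om ω) : ω + 1 ≠ 0 := by
  intro h0
  apply h.ne1
  have := h.two 1
  linear_combination h0 - this

variable {ω : F} {b : Fin 6 → V}

theorem mkVc (h2 : StVEC) (hω : Om ω) (hli : LinearIndependent F b) : Vc ω b := by
  obtain ⟨a1, a2, a3, a4, _, a6, a7, _, _, a8, _, _⟩ := h2 ω b hω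
  exact ⟨hω, a1, fun n hn => (a2 n hn).1, fun n hn => (a2 n hn).2, a3, a4 hli, a6, a7, a8⟩

theorem Vc.inj (C : Vc ω b) {m n : ℕ} (hm : m < 4096) (hn : n < 4096) (h : vv ω b m = vv ω b n) : m = n := by
  have h1 : vv ω b (m ^^^ n) = 0 := by rw [C.xor, h, Om.tw C.om]
  exact Nat.xor_eq_zero_iff.1 (C.zero _ (C.xl _ _ hm hn) h1)

theorem Vc.mul3 (C : Vc ω b) {n : ℕ} (hn : n < 4096) {c : F} (hc : c ≠ 0) :
    ∃ m, (m = n ∨ m = wm n ∨ m = n ^^^ wm n) ∧ m < 4096 ∧ vv ω b m = c • vv ω b n := by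
  rcases C.om.all c with rfl | rfl | rfl | rfl
  · exact (hc rfl).elim
  · exact ⟨n, Or.inl rfl, hn, (one_smul _ _).symm⟩
  · exact ⟨wm n, Or.inr (Or.inl rfl), C.wml n hn, C.wmv n hn⟩
  · refine ⟨n ^^^ wm n, Or.inr (Or.inr rfl), C.xl _ _ hn (C.wml n hn), ?_⟩
    rw [C.xor, C.wmv n hn, add_smul, one_smul, add_comm]

theorem Vc.mul4 (C : Vc ω b) {n : ℕ} (hn : n < 4096) (c : F) :
    ∃ m ∈ mul4 n, m < 4096 ∧ vv ω b m = c • vv ω b n := by
  by_cases hc : c = 0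
  · exact ⟨0, by simp [Pool.Agent.Helper45.U4.mul4], by norm_num, by rw [hc, zero_smul, C.z0]⟩
  · obtain ⟨m, h1, h2, h3⟩ := C.mul3 hn hc
    refine ⟨m, ?_, h2, h3⟩
    unfold Pool.Agent.Helper45.U4.mul4
    simp only [List.mem_cons, List.not_mem_nil, or_false]
    rcases h1 with h | h | h
    · exact Or.inr (Or.inl h)
    · exact Or.inr (Or.inr (Or.inl h))
    · exact Or.inr (Or.inr (Or.inr h))

theorem Vc.combos (C : Vc ω b) {p q r : ℕ} (hp : p < 4096) (hq : q < 4096) (hr : r < 4096) {α β γ : F}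
    (h : α ≠ 0 ∨ β ≠ 0 ∨ γ ≠ 0) :
    ∃ x ∈ combos p q r, x < 4096 ∧ ∃ κ : F, κ ≠ 0 ∧
      α • vv ω b p + β • vv ω b q + γ • vv ω b r = κ • vv ω b x := by
  unfold Pool.Agent.Helper45.U4.combos
  by_cases hα : α = 0
  · subst hα
    by_cases hβ : β = 0
    · subst hβ
      have hγ : γ ≠ 0 := by
        rcases h with h | h | h
        · exact (h rfl).elim
        · exact (h rfl).elim
        · exact h
      refine ⟨r, ?_, hr, γ, hγ, ?_⟩
      · exact List.mem_append_right _ (List.mem_singleton.2 rfl)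
      · rw [zero_smul, zero_smul, zero_add, zero_add]
    · obtain ⟨m, h1, h2, h3⟩ := C.mul4 hr (β⁻¹ * γ)
      refine ⟨q ^^^ m, ?_, C.xl _ _ hq h2, β, hβ, ?_⟩
      · exact List.mem_append_left _ (List.mem_append_right _ (List.mem_map.2 ⟨m, h1, rfl⟩))
      · rw [C.xor, h3, smul_add, smul_smul, mul_inv_cancel_left₀ hβ, zero_smul, zero_add]
  · obtain ⟨m, h1, h2, h3⟩ := C.mul4 hr (α⁻¹ * γ)
    obtain ⟨k, h4, h5, h6⟩ := C.mul4 hq (α⁻¹ * β)
    refine ⟨p ^^^ k ^^^ m, ?_, C.xl _ _ (C.xl _ _ hp h5) h2, α, hα, ?_⟩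
    · refine List.mem_append_left _ (List.mem_append_left _ (List.mem_flatMap.2 ⟨k, h4, ?_⟩))
      exact List.mem_map.2 ⟨m, h1, rfl⟩
    · rw [C.xor, C.xor, h3, h6, smul_add, smul_add, smul_smul, smul_smul, mul_inv_cancel_left₀ hα,
        mul_inv_cancel_left₀ hα]

/-- the span of three pairwise orthogonal singular vectors -/
theorem ts_three (φ : Form F V) {u v w : V} (hu : φ.Sing u) (hv : φ.Sing v) (hw : φ.Sing w)
    (huv : φ.f u v = 0) (huw : φ.f u w = 0) (hvw : φ.f v w = 0) :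
    φ.toPolar.TS (Submodule.span F {u} ⊔ Submodule.span F {v} ⊔ Submodule.span F {w}) := by
  have h1 : φ.toPolar.TS (Submodule.span F {u}) := by
    have h0 : φ.toPolar.TS (⊥ ⊔ Submodule.span F {u}) := Polar.ts_bot.sup_span hu (by
      intro x hx
      rw [Submodule.mem_bot] at hx
      rw [hx]
      exact Polar.zero_left u)
    rwa [bot_sup_eq] at h0
  have h2 : φ.toPolar.TS (Submodule.span F {u} ⊔ Submodule.span F {v}) := h1.sup_span hv (by
    intro x hx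
    obtain ⟨c, rfl⟩ := Submodule.mem_span_singleton.1 hx
    exact Polar.smul_left c huv)
  refine h2.sup_span hw ?_
  intro x hx
  obtain ⟨y, hy, z, hz, rfl⟩ := Submodule.mem_sup.1 hx
  obtain ⟨c, rfl⟩ := Submodule.mem_span_singleton.1 hy
  obtain ⟨d, rfl⟩ := Submodule.mem_span_singleton.1 hz
  exact Polar.add_left (Polar.smul_left c huw) (Polar.smul_left d hvw)

theorem finrank_three {u v w : V}
    (h : ∀ α β γ : F, (α ≠ 0 ∨ β ≠ 0 ∨ γ ≠ 0) → α • u + β • v + γ • w ≠ 0) :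
    finrank F (Submodule.span F {u} ⊔ Submodule.span F {v} ⊔ Submodule.span F {w} : Submodule F V) = 3 := by
  have h1 : LinearIndependent F ![u, v, w] := by
    rw [Fintype.linearIndependent_iff]
    intro g hg
    rw [Fin.sum_univ_three] at hg
    simp only [Matrix.cons_val_zero, Matrix.cons_val_one, Matrix.cons_val_two, Matrix.tail_cons,
      Matrix.head_cons] at hg
    have h2 : ¬ (g 0 ≠ 0 ∨ g 1 ≠ 0 ∨ g 2 ≠ 0) := fun h3 => h _ _ _ h3 hg
    push Not at h2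
    intro i
    fin_cases i
    · exact h2.1
    · exact h2.2.1
    · exact h2.2.2
  have h2 := finrank_span_eq_card h1
  rw [Fintype.card_fin] at h2
  have h3 : (Submodule.span F {u} ⊔ Submodule.span F {v} ⊔ Submodule.span F {w} : Submodule F V) =
      Submodule.span F (Set.range ![u, v, w]) := by
    rw [Matrix.range_cons, Matrix.range_cons, Matrix.range_cons, Matrix.range_empty, Set.union_empty,
      Submodule.span_union, Submodule.span_union, sup_assoc]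
  rw [h3]
  exact h2

/-- the coordinates of a code -/
theorem f_zero_vv (φ : Form F V) (hF : Fr φ b) (n : ℕ) (hn : n &&& 130 = 0) : φ.f (b 0) (vv ω b n) = 0 := by
  have t1 : n.testBit 1 = false := by
    have h1 := Nat.testBit_and n 130 1
    rw [hn] at h1
    have h3 : Nat.testBit 130 1 = true := by decide
    simpa [h3] using h1
  have t2 : n.testBit 7 = false := by
    have h1 := Nat.testBit_and n 130 7
    rw [hn] at h1
    have h3 : Nat.testBit 130 7 = true := by decide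
    simpa [h3] using h1
  unfold vv
  rw [map_sum, Fin.sum_univ_six]
  simp only [map_smul, hF.gram]
  simp [gm, t1, t2]

theorem f_one_vv (φ : Form F V) (hF : Fr φ b) (n : ℕ) (hn : n &&& 65 = 0) : φ.f (b 1) (vv ω b n) = 0 := by
  have t1 : n.testBit 0 = false := by
    have h1 := Nat.testBit_and n 65 0
    rw [hn] at h1
    simpa using h1
  have t2 : n.testBit 6 = false := by
    have h1 := Nat.testBit_and n 65 6
    rw [hn] at h1
    have h3 : Nat.testBit 65 6 = true := by decide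
    simpa [h3] using h1
  unfold vv
  rw [map_sum, Fin.sum_univ_six]
  simp only [map_smul, hF.gram]
  simp [gm, t1, t2, Fin.le_def]

/-- splitting a code -/
theorem split_code {n : ℕ} (hn : n < 4096) : n = (n &&& 65) ^^^ (n &&& 130) ^^^ (n &&& 3900) := by
  apply Nat.eq_of_testBit_eq
  intro i
  rw [Nat.testBit_xor, Nat.testBit_xor, Nat.testBit_and, Nat.testBit_and, Nat.testBit_and]
  by_cases hi : i < 12
  · interval_cases i <;> (generalize n.testBit _ = x; cases x <;> decide)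
  · have : n.testBit i = false := by
      apply Nat.testBit_lt_two_pow
      calc n < 2 ^ 12 := hn
        _ ≤ 2 ^ i := Nat.pow_le_pow_right (by norm_num) (by omega)
    rw [this]
    simp

theorem and_65 (n : ℕ) : n &&& 65 = 0 ∨ n &&& 65 = 1 ∨ n &&& 65 = 64 ∨ n &&& 65 = 65 := by
  have h1 : ∀ x < 66, x &&& 65 = x → x = 0 ∨ x = 1 ∨ x = 64 ∨ x = 65 := by decide
  exact h1 (n &&& 65) (Nat.lt_succ_of_le Nat.and_le_right) (by rw [Nat.and_assoc, Nat.and_self])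

theorem and_130 (n : ℕ) : n &&& 130 = 0 ∨ n &&& 130 = 2 ∨ n &&& 130 = 128 ∨ n &&& 130 = 130 := by
  have h1 : ∀ x < 131, x &&& 130 = x → x = 0 ∨ x = 2 ∨ x = 128 ∨ x = 130 := by decide
  exact h1 (n &&& 130) (Nat.lt_succ_of_le Nat.and_le_right) (by rw [Nat.and_assoc, Nat.and_self])

theorem Vc.split0 (C : Vc ω b) {n : ℕ} (hn : n < 4096) (h : n &&& 130 = 0) :
    ∃ α : F, vv ω b n = α • b 0 + vv ω b (n &&& 3900) := by
  have h1 := split_code hn
  rw [h, Nat.xor_zero] at h1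
  have h64 : vv ω b 64 = ω • b 0 := by
    have := C.wmv 1 (by norm_num)
    rwa [C.v1] at this
  have h65 : vv ω b 65 = (1 + ω) • b 0 := by
    have := C.xor 1 64
    rw [h64, C.v1] at this
    rw [add_smul, one_smul]
    exact this
  have h2 : vv ω b n = vv ω b (n &&& 65) + vv ω b (n &&& 3900) := by
    rw [← C.xor, ← h1]
  rcases and_65 n with h3 | h3 | h3 | h3 <;> rw [h3] at h2
  · exact ⟨0, by rw [h2, C.z0, zero_smul]⟩
  · exact ⟨1, by rw [h2, C.v1, one_smul]⟩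
  · exact ⟨ω, by rw [h2, h64]⟩
  · exact ⟨1 + ω, by rw [h2, h65]⟩

theorem Vc.split1 (C : Vc ω b) {n : ℕ} (hn : n < 4096) (h : n &&& 65 = 0) :
    ∃ α : F, vv ω b n = α • b 1 + vv ω b (n &&& 3900) := by
  have h1 := split_code hn
  rw [h, Nat.zero_xor] at h1
  have h128 : vv ω b 128 = ω • b 1 := by
    have := C.wmv 2 (by norm_num)
    rwa [C.v2] at this
  have h130 : vv ω b 130 = (1 + ω) • b 1 := by
    have := C.xor 2 128
    rw [h128, C.v2] at this
    rw [add_smul, one_smul]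
    exact this
  have h2 : vv ω b n = vv ω b (n &&& 130) + vv ω b (n &&& 3900) := by
    rw [← C.xor, ← h1]
  rcases and_130 n with h3 | h3 | h3 | h3 <;> rw [h3] at h2
  · exact ⟨0, by rw [h2, C.z0, zero_smul]⟩
  · exact ⟨1, by rw [h2, C.v2, one_smul]⟩
  · exact ⟨ω, by rw [h2, h128]⟩
  · exact ⟨1 + ω, by rw [h2, h130]⟩

theorem Vc.same (C : Vc ω b) {p q : ℕ} (hq : q < 4096) (h : sameP p q = true) :
    ∃ c : F, c ≠ 0 ∧ vv ω b p = c • vv ω b q := by
  unfold sameP at h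
  simp only [Bool.or_eq_true, beq_iff_eq] at h
  rcases h with (rfl | rfl) | rfl
  · exact ⟨1, one_ne_zero, (one_smul _ _).symm⟩
  · exact ⟨ω, C.om.ne, C.wmv q hq⟩
  · exact ⟨ω + 1, Om.ne_add C.om, by rw [C.xor, C.wmv q hq, add_smul, one_smul, add_comm]⟩

/-- different codes, different points -/
theorem Vc.diff (C : Vc ω b) {p q : ℕ} (hp : p < 4096) (hq : q < 4096) (h : diffP p q = true)
    (h1 : vv ω b p ≠ 0) (h2 : vv ω b q ≠ 0) :
    Projectivization.mk F (vv ω b p) h1 ≠ Projectivization.mk F (vv ω b q) h2 := by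
  intro h3
  rw [Projectivization.mk_eq_mk_iff'] at h3
  obtain ⟨c, hc⟩ := h3
  have hc0 : c ≠ 0 := by
    rintro rfl
    rw [zero_smul] at hc
    exact h1 hc.symm
  obtain ⟨m, h4, h5, h6⟩ := C.mul3 hq hc0
  have h7 : p = m := C.inj hp h5 (by rw [h6, hc])
  unfold diffP at h
  simp only [Bool.and_eq_true, bne_iff_ne, ne_eq] at h
  rcases h4 with h4 | h4 | h4
  · exact h.1.1 (h7.trans h4)
  · exact h.1.2 (h7.trans h4)
  · exact h.2 (h7.trans h4)

theorem okv_spec {t n : ℕ} (h : okv t n = true) :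
    n ≠ 0 ∧ (t ≠ 0 → n ≠ 1 ∧ n ≠ 64 ∧ n ≠ 65) ∧ (t = 2 → n ≠ 2 ∧ n ≠ 128 ∧ n ≠ 130) := by
  unfold okv at h
  simp only [Bool.and_eq_true, Bool.or_eq_true, bne_iff_ne, ne_eq, beq_iff_eq] at h
  refine ⟨h.1.1, fun ht => ?_, fun ht => ?_⟩
  · have := h.1.2.resolve_left ht
    exact ⟨this.1.1, this.1.2, this.2⟩
  · have := h.2.resolve_left (not_not.2 ht)
    exact ⟨this.1.1, this.1.2, this.2⟩

theorem conf_aux (C : Vc ω b) {f : ℙ F V → ℤ} {X : ℙ F V} {w : V} {k : ℕ} (H : Hv f X w) (hk : k < 4096)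
    (hkw : vv ω b k = w) {p q : ℕ} (hp : p < 4096) (hq : q < 4096) (hvp : vv ω b p ≠ 0) (hvq : vv ω b q ≠ 0)
    (h1 : 0 < f (Projectivization.mk F _ hvp)) (h2 : 0 < f (Projectivization.mk F _ hvq))
    (hX : X.rep ∈ line (Projectivization.mk F _ hvp) (Projectivization.mk F _ hvq)) :
    ∃ n m : ℕ, (n = p ^^^ q ∨ n = p ^^^ wm q ∨ n = p ^^^ q ^^^ wm q) ∧
      (m = k ∨ m = wm k ∨ m = k ^^^ wm k) ∧ n = m := by
  obtain ⟨c, d, hc, hd, hcd⟩ := H.on_line hvp hvq h1 h2 hX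
  obtain ⟨m1, a1, a2, a3⟩ := C.mul3 hq hc
  obtain ⟨m2, b1, b2, b3⟩ := C.mul3 hk hd
  refine ⟨p ^^^ m1, m2, ?_, b1, ?_⟩
  · rcases a1 with rfl | rfl | rfl
    · exact Or.inl rfl
    · exact Or.inr (Or.inl rfl)
    · exact Or.inr (Or.inr (Nat.xor_assoc _ _ _).symm)
  · apply C.inj (C.xl _ _ hp a2) b2
    rw [C.xor, a3, b3, hcd, hkw]

/-- three points on a line through a heavy point -/
theorem three_aux (C : Vc ω b) {f : ℙ F V → ℤ} {X : ℙ F V} {w : V} (H : Hv f X w)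
    {p q : ℕ} {α β : F} (hvp : vv ω b p ≠ 0) (hvq : vv ω b q ≠ 0)
    (h1 : vv ω b p = α • w + vv ω b (p &&& 3900)) (h2 : vv ω b q = β • w + vv ω b (q &&& 3900))
    (hs : sameP (p &&& 3900) (q &&& 3900) = true) :
    (Projectivization.mk F _ hvq).rep ∈ line X (Projectivization.mk F _ hvp) := by
  obtain ⟨c, hc, h3⟩ := C.same (lt_of_le_of_lt Nat.and_le_right (by norm_num)) hs
  apply H.mem_line hvp hvq (c := c⁻¹) (d := β - c⁻¹ * α)
  rw [h1, h2, h3, smul_add, smul_smul c⁻¹ c, inv_mul_cancel₀ hc, one_smul, smul_smul, sub_smul]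
  abel

theorem no3 {n a b c : ℕ} (h : n = a ∨ n = b ∨ n = c) (h1 : n ≠ a ∧ n ≠ b ∧ n ≠ c) : False := by
  rcases h with h | h | h
  · exact h1.1 h
  · exact h1.2.1 h
  · exact h1.2.2 h

theorem pairs_aux {P : ℕ → Prop} {y m m' : ℕ} (hm : m = 0 ∨ m = 1 ∨ m = 64 ∨ m = 65)
    (hm' : m' = 0 ∨ m' = 1 ∨ m' = 64 ∨ m' = 65) (hne : m ≠ m') (h : P (y ^^^ m)) (h' : P (y ^^^ m')) :
    ∃ pr ∈ pairs y, ∀ x ∈ pr, P x := by
  have key : ∀ c d : ℕ, P c → P d → [c, d] ∈ pairs y → ∃ pr ∈ pairs y, ∀ x ∈ pr, P x := by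
    intro c d hc hd hmem
    refine ⟨[c, d], hmem, ?_⟩
    intro x hx
    simp only [List.mem_cons, List.not_mem_nil, or_false] at hx
    rcases hx with rfl | rfl
    · exact hc
    · exact hd
  rcases hm with rfl | rfl | rfl | rfl <;> rcases hm' with rfl | rfl | rfl | rfl
  all_goals first
    | exact absurd rfl hne
    | (refine key _ _ h h' ?_; simp [pairs]; done)
    | (refine key _ _ h' h ?_; simp [pairs])

end code

theorem hCFG (h1 : StHF) (h2 : StVEC) (h3 : StORT) (h4 : StGEO) (h5 : StOVC) : StCFG := by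
  intro F V _ _ _ _ _ _ φ f t X1 X2 D ω b hω hF hb0 hb1 O B hO hOI hBI
  have C : Vc ω b := mkVc h2 hω hF.li
  obtain ⟨G1, G2, G3, G4⟩ := h4 φ f t X1 X2 D
  have hOv := h5 φ f t X1 X2 D ω b hω hF hb0
  have hsing : ∀ x, φ.Sing x ↔ φ.f x x = 0 := (h1 φ D.hs.kind D.hs.card).2.2.2.2.2.1
  have ort : ∀ m n : ℕ, m < 4096 → n < 4096 → (orth m n = true ↔ φ.f (vv ω b m) (vv ω b n) = 0) :=
    fun m n hm hn => h3 φ ω b D.hs.kind D.hs.card hω hF m n hm hn
  have hv : ∀ (X : ℙ F V) (i : Fin 6), f X = 0 → b i ∈ Submodule.span F {X.rep} → Hv f X (b i) := by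
    intro X i hX hb
    obtain ⟨c, hc⟩ := Submodule.mem_span_singleton.1 hb
    have hc0 : c ≠ 0 := by
      rintro rfl
      rw [zero_smul] at hc
      exact hF.li.ne_zero i hc.symm
    exact ⟨hX, c⁻¹, inv_ne_zero hc0, by rw [← hc, smul_smul, inv_mul_cancel₀ hc0, one_smul]⟩
  have H1 : Hv f X1 (b 0) := hv X1 0 D.z1 hb0
  have H2 : t = 2 → Hv f X2 (b 1) := fun ht => hv X2 1 (D.z2 ht) (hb1 ht)
  have g00 : φ.f (b 0) (b 0) = 0 := by rw [hF.gram]; simp [gm]
  have s0 : φ.Sing (b 0) := (hsing _).2 g00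
  -- scalars
  have lin : ∀ (y : ℕ) (c : F), y < 4096 → IV f (vv ω b y + c • b 0) → ∃ m, (m = 0 ∨ m = 1 ∨ m = 64 ∨ m = 65) ∧
      InC ω b f (y ^^^ m) ∧ vv ω b m = c • b 0 := by
    intro y c hy hI
    have h64 : wm 1 = 64 := by decide
    obtain ⟨m, hm1, hm2, hm3⟩ := C.mul4 (n := 1) (by norm_num) c
    rw [C.v1] at hm3
    refine ⟨m, ?_, ⟨C.xl _ _ hy hm2, ?_⟩, hm3⟩
    · simp only [Pool.Agent.Helper45.U4.mul4, List.mem_cons, List.not_mem_nil, or_false, h64] at hm1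
      exact hm1
    · rw [C.xor, hm3]
      exact hI
  refine ⟨hBI, ?_, ?_, ?_, ?_, ?_, ?_, ?_⟩
  · -- plane
    intro p q r hok
    unfold okP at hok
    simp only [Bool.and_eq_true, decide_eq_true_eq] at hok
    obtain ⟨⟨⟨⟨⟨⟨⟨⟨⟨a1, a2⟩, a3⟩, a4⟩, a5⟩, a6⟩, a7⟩, a8⟩, a9⟩, a10⟩ := hok
    have hne : ∀ α β γ : F, (α ≠ 0 ∨ β ≠ 0 ∨ γ ≠ 0) →
        α • vv ω b p + β • vv ω b q + γ • vv ω b r ≠ 0 := by
      intro α β γ h h0
      obtain ⟨x, hx1, hx2, κ, hκ, hx3⟩ := C.combos a1 a2 a3 h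
      rw [h0] at hx3
      have hx4 : vv ω b x = 0 := (smul_eq_zero.1 hx3.symm).resolve_left hκ
      have hx5 := List.all_eq_true.1 a10 x hx1
      rw [C.zero x hx2 hx4] at hx5
      simp at hx5
    obtain ⟨y, hy1, hy2⟩ := G1 _ (ts_three φ ((hsing _).2 ((ort _ _ a1 a1).1 a4)) ((hsing _).2 ((ort _ _ a2 a2).1 a5))
      ((hsing _).2 ((ort _ _ a3 a3).1 a6)) ((ort _ _ a1 a2).1 a7) ((ort _ _ a1 a3).1 a8) ((ort _ _ a2 a3).1 a9))
      (finrank_three hne)
    obtain ⟨z, hz, w, hw, hzw⟩ := Submodule.mem_sup.1 hy1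
    obtain ⟨z1, hz1, z2, hz2, hz3⟩ := Submodule.mem_sup.1 hz
    obtain ⟨α, hα⟩ := Submodule.mem_span_singleton.1 hz1
    obtain ⟨β, hβ⟩ := Submodule.mem_span_singleton.1 hz2
    obtain ⟨γ, hγ⟩ := Submodule.mem_span_singleton.1 hw
    rw [← hz3, ← hα, ← hβ, ← hγ] at hzw
    have h0 : α ≠ 0 ∨ β ≠ 0 ∨ γ ≠ 0 := by
      by_contra hcon
      push Not at hcon
      rw [hcon.1, hcon.2.1, hcon.2.2, zero_smul, zero_smul, zero_smul, add_zero, add_zero] at hzw
      exact y.rep_nonzero hzw.symm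
    obtain ⟨x, hx1, hx2, κ, hκ, hx3⟩ := C.combos a1 a2 a3 h0
    exact ⟨x, hx1, hx2, iv_of_rep (hzw.symm.trans hx3) hy2⟩
  · -- line
    intro y hy
    obtain ⟨a1, a2, a3, c, hc⟩ := hOI y hy
    obtain ⟨m, hm, hI, _⟩ := lin y c a1 hc
    refine ⟨y ^^^ m, ?_, hI⟩
    unfold ln4
    simp only [List.mem_cons, List.not_mem_nil, or_false]
    rcases hm with rfl | rfl | rfl | rfl
    · exact Or.inl (Nat.xor_zero _)
    · exact Or.inr (Or.inl rfl)
    · exact Or.inr (Or.inr (Or.inl rfl))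
    · exact Or.inr (Or.inr (Or.inr rfl))
  · -- pair
    intro ht y hy
    obtain ⟨a1, a2, a3, c, hc⟩ := hOI y hy
    obtain ⟨m, hm, hI, hmv⟩ := lin y c a1 hc
    obtain ⟨hne, hpos⟩ := hc
    have hfy : φ.f (b 0) (vv ω b y) = 0 := by
      apply f_zero_vv φ hF
      have : y &&& 130 = (y &&& 195) &&& 130 := by
        rw [Nat.and_assoc]
        congr 1
      rw [this, a2, Nat.zero_and]
    have hf0 : φ.f (b 0) (vv ω b y + c • b 0) = 0 := by
      rw [map_add, map_smul, hfy, g00, smul_zero, add_zero]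
    obtain ⟨d, hd0, hd⟩ := H1.partner hne ((G3 _ hpos).1 ht (H1.f_rep φ hne hf0))
    rw [add_assoc, ← add_smul] at hd
    obtain ⟨m', hm', hI', hmv'⟩ := lin y (c + d) a1 hd
    have hmm : m ≠ m' := by
      rintro rfl
      rw [hmv'] at hmv
      apply hd0
      have h6 : ((c + d) - c) • b 0 = 0 := by rw [sub_smul, hmv, sub_self]
      rw [add_sub_cancel_left] at h6
      exact (smul_eq_zero.1 h6).resolve_right (hF.li.ne_zero 0)
    exact pairs_aux hm hm' hmm hI hI'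
  · -- partner
    intro h p hh hp hor
    obtain ⟨p1, p2, p3⟩ := hp
    have key : ∀ (X : ℙ F V) (w : V), Hv f X w → vv ω b (heavy h) = w →
        (φ.f X.rep (Projectivization.mk F _ p2).rep = 0 → ∃ q, q ≠ Projectivization.mk F _ p2 ∧ 0 < f q ∧
          q.rep ∈ line X (Projectivization.mk F _ p2)) →
        ∃ x ∈ [p ^^^ heavy h, p ^^^ wm (heavy h), p ^^^ heavy h ^^^ wm (heavy h)], InC ω b f x := by
      intro X w H hw hG
      have hhl : heavy h < 4096 := by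
        unfold heavy
        split_ifs <;> norm_num
      have hf0 : φ.f w (vv ω b p) = 0 := by
        rw [← hw]
        exact (ort _ _ hhl p1).1 hor
      obtain ⟨d, hd0, hd⟩ := H.partner p2 (hG (H.f_rep φ p2 hf0))
      obtain ⟨m, hm1, hm2, hm3⟩ := C.mul3 hhl hd0
      refine ⟨p ^^^ m, ?_, C.xl _ _ p1 hm2, ?_⟩
      · simp only [List.mem_cons, List.not_mem_nil, or_false]
        rcases hm1 with h6 | h6 | h6
        · exact Or.inl (by rw [h6])
        · exact Or.inr (Or.inl (by rw [h6]))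
        · exact Or.inr (Or.inr (by rw [h6, Nat.xor_assoc]))
      · rw [C.xor, hm3, hw]
        exact hd
    rcases hh with ⟨ht, rfl⟩ | ⟨ht, rfl⟩
    · exact key X1 (b 0) H1 C.v1 ((G3 _ p3).1 ht)
    · exact key X2 (b 1) (H2 ht) C.v2 ((G3 _ p3).2 ht)
  · -- conf
    intro p q hp hq hc
    obtain ⟨p1, p2, p3⟩ := hp
    obtain ⟨q1, q2, q3⟩ := hq
    unfold conflict at hc
    simp only [Bool.and_eq_true] at hc
    obtain ⟨⟨⟨c1, c2⟩, c3⟩, c4⟩ := hc
    have d2 := okv_spec c2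
    have d3 := okv_spec c3
    have d4 := okv_spec c4
    have hne : Projectivization.mk F _ p2 ≠ Projectivization.mk F _ q2 := by
      apply C.diff p1 q1
      unfold diffP
      simp only [Bool.and_eq_true, bne_iff_ne, ne_eq]
      refine ⟨⟨fun h => d2.1 ?_, fun h => d3.1 ?_⟩, fun h => d4.1 ?_⟩
      · exact Nat.xor_eq_zero_iff.2 h
      · exact Nat.xor_eq_zero_iff.2 h
      · rw [Nat.xor_assoc]
        exact Nat.xor_eq_zero_iff.2 h
    have w1 : wm 1 = 64 := by decide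
    have w2 : wm 2 = 128 := by decide
    have w3 : (1 : ℕ) ^^^ 64 = 65 := by decide
    have w4 : (2 : ℕ) ^^^ 128 = 130 := by decide
    rcases G2 _ _ hne p3 q3 (f_rep_mk φ p2 q2 ((ort _ _ p1 q1).1 c1)) with ⟨ht, hX⟩ | ⟨ht, hX⟩
    · obtain ⟨n, m, e1, e2, e3⟩ := conf_aux C H1 (by norm_num) C.v1 p1 q1 p2 q2 p3 q3 hX
      rw [w1, w3] at e2
      have f2 := d2.2.1 ht
      have f3 := d3.2.1 ht
      have f4 := d4.2.1 ht
      rcases e1 with e1 | e1 | e1 <;> rw [← e3, e1] at e2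
      · exact no3 e2 f2
      · exact no3 e2 f3
      · exact no3 e2 f4
    · obtain ⟨n, m, e1, e2, e3⟩ := conf_aux C (H2 ht) (by norm_num) C.v2 p1 q1 p2 q2 p3 q3 hX
      rw [w2, w4] at e2
      have f2 := d2.2.2 ht
      have f3 := d3.2.2 ht
      have f4 := d4.2.2 ht
      rcases e1 with e1 | e1 | e1 <;> rw [← e3, e1] at e2
      · exact no3 e2 f2
      · exact no3 e2 f3
      · exact no3 e2 f4
  · -- three
    intro p q r hp hq hr hc
    obtain ⟨p1, p2, p3⟩ := hp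
    obtain ⟨q1, q2, q3⟩ := hq
    obtain ⟨r1, r2, r3⟩ := hr
    unfold three at hc
    simp only [Bool.and_eq_true, Bool.or_eq_true, beq_iff_eq, bne_iff_ne, ne_eq] at hc
    obtain ⟨⟨⟨⟨⟨⟨c1, c2⟩, c3⟩, c4⟩, c5⟩, c6⟩, c7⟩ := hc
    have e1 := C.diff p1 q1 c1 p2 q2
    have e2 := C.diff p1 r1 c2 p2 r2
    have e3 := C.diff q1 r1 c3 q2 r2
    obtain ⟨g1, g2⟩ := G4 _ _ _ e1 e2 e3 p3 q3 r3
    rcases c4 with c4 | ⟨ht, c4⟩
    · rw [Nat.and_or_distrib_right, Nat.and_or_distrib_right, Nat.or_eq_zero_iff, Nat.or_eq_zero_iff] at c4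
      obtain ⟨α, hα⟩ := C.split0 p1 c4.1.1
      obtain ⟨β, hβ⟩ := C.split0 q1 c4.1.2
      obtain ⟨γ, hγ⟩ := C.split0 r1 c4.2
      exact g1 (H1.f_rep φ p2 (f_zero_vv φ hF p c4.1.1)) (three_aux C H1 p2 q2 hα hβ c6) (three_aux C H1 p2 r2 hα hγ c7)
    · rw [Nat.and_or_distrib_right, Nat.and_or_distrib_right, Nat.or_eq_zero_iff, Nat.or_eq_zero_iff] at c4
      obtain ⟨α, hα⟩ := C.split1 p1 c4.1.1
      obtain ⟨β, hβ⟩ := C.split1 q1 c4.1.2
      obtain ⟨γ, hγ⟩ := C.split1 r1 c4.2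
      exact g2 ht ((H2 ht).f_rep φ p2 (f_one_vv φ hF p c4.1.1)) (three_aux C (H2 ht) p2 q2 hα hβ c6)
        (three_aux C (H2 ht) p2 r2 hα hγ c7)
  · -- init
    intro q hq hc
    obtain ⟨q1, q2, q3⟩ := hq
    unfold initK at hc
    simp only [Bool.and_eq_true, Bool.or_eq_true, beq_iff_eq, Bool.not_eq_true'] at hc
    rcases hc with (hc | ⟨ht, hc⟩) | ⟨hc1, hc2⟩
    · obtain ⟨c, _, hc⟩ := C.same (by norm_num) hc
      rw [C.v1] at hc
      exact H1.not_iv c (hc ▸ ⟨q2, q3⟩)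
    · obtain ⟨c, _, hc⟩ := C.same (by norm_num) hc
      rw [C.v2] at hc
      exact (H2 ht).not_iv c (hc ▸ ⟨q2, q3⟩)
    · obtain ⟨α, hα⟩ := C.split0 q1 hc1
      obtain ⟨y, hy⟩ : ∃ y, y = q &&& 3900 := ⟨_, rfl⟩
      rw [← hy] at hα hc2
      have y1 : y < 4096 := by rw [hy]; exact lt_of_le_of_lt Nat.and_le_right (by norm_num)
      have y2 : y &&& 195 = 0 := by
        rw [hy, Nat.and_assoc]
        have : 3900 &&& 195 = 0 := by decide
        rw [this, Nat.and_zero]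
      have hI : IV f (vv ω b q) := ⟨q2, q3⟩
      by_cases y3 : y = 0
      · rw [y3, C.z0, add_zero] at hα
        rw [hα] at hI
        exact H1.not_iv α hI
      · have hyI : InO ω b f y := ⟨y1, y2, y3, α, by rw [add_comm, ← hα]; exact hI⟩
        have hqs : φ.Sing (vv ω b q) := by
          by_contra hns
          obtain ⟨g, hg0, hg⟩ := rep_of_mk (F := F) q2
          have h6 : ¬ φ.Sing (Projectivization.mk F _ q2).rep := by
            intro h7
            apply hns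
            have h8 := φ.toPolar.sing_smul g⁻¹ _ h7
            rw [hg, smul_smul, inv_mul_cancel₀ hg0, one_smul] at h8
            exact h8
          rw [D.sup _ h6] at q3
          exact lt_irrefl _ q3
        have hys : φ.Sing (vv ω b y) := by
          have h6 : vv ω b y = (-α) • b 0 + vv ω b q := by
            rw [hα, neg_smul, neg_add_cancel_left]
          rw [h6]
          apply φ.toPolar.sing_add _ _ (φ.toPolar.sing_smul _ _ s0) hqs
          exact Polar.smul_left (P := φ.toPolar) _ (f_zero_vv φ hF q hc1)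
        obtain ⟨z, hz1, hz2⟩ := ini hO y1 y2 y3 ((ort _ _ y1 y1).2 ((hsing _).1 hys)) hc2
        exact hOv.conf y z hyI (hOI z hz1) hz2

end Pool.Agent.Helper99.U4
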